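import Pool.Agent.H16.LA.S8.W229.V.Stmts

set_option autoImplicit false

namespace Pool.Agent.W669.VA1a

open MeasureTheory NumberField NumberField.InfinitePlace NumberField.mixedEmbedding Module
open scoped ENNReal NNReal Pointwise

/-- counting form of Blichfeldt's principle -/
theorem measure_le {G E : Type*} [AddGroup G] [Countable G] [MeasurableSpace E] [AddAction G E]
    {μ : Measure E} [MeasurableConstVAdd G E] [VAddInvariantMeasure G E μ] {F s : Set E}
    (hF : IsAddFundamentalDomain G F μ) (hs : MeasurableSet s) (n : ℕ∞)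
    (hn : ∀ x : E, {g : G | x ∈ g +ᵥ s}.encard ≤ n) :
    μ s ≤ (n : ℝ≥0∞) * μ F := by
  rw [hF.measure_eq_tsum]
  have hms : ∀ g : G, MeasurableSet (g +ᵥ s) := fun g => hs.const_vadd g
  have h1 : ∀ g : G, μ ((g +ᵥ s) ∩ F) = ∫⁻ x in F, (g +ᵥ s).indicator 1 x ∂μ := by
    intro g
    rw [lintegral_indicator_one (hms g), Measure.restrict_apply (hms g)]
  simp_rw [h1]
  rw [← lintegral_tsum (fun g => (measurable_one.indicator (hms g)).aemeasurable)]
  calc ∫⁻ x in F, ∑' g : G, (g +ᵥ s).indicator 1 x ∂μ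
      ≤ ∫⁻ _ in F, (n : ℝ≥0∞) ∂μ := by
        apply lintegral_mono
        intro x
        have h2 : ∑' g : G, (g +ᵥ s).indicator (1 : E → ℝ≥0∞) x
            = ({g : G | x ∈ g +ᵥ s}.encard : ℝ≥0∞) := by
          have h3 := tsum_subtype {g : G | x ∈ g +ᵥ s} (fun _ => (1 : ℝ≥0∞))
          rw [← ENNReal.tsum_set_one]
          refine Eq.trans ?_ h3.symm
          apply tsum_congr
          intro g
          by_cases hx : x ∈ g +ᵥ s
          · rw [Set.indicator_of_mem hx, Set.indicator_of_mem]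
            · rfl
            · exact hx
          · rw [Set.indicator_of_notMem hx, Set.indicator_of_notMem]
            exact hx
        change ∑' g : G, (g +ᵥ s).indicator (1 : E → ℝ≥0∞) x ≤ _
        rw [h2]
        exact ENat.toENNReal_le.2 (hn x)
    _ = (n : ℝ≥0∞) * μ F := by
        rw [lintegral_const, Measure.restrict_apply_univ]

variable (K : Type) [Field K] [NumberField K]

/-- the small integers -/
def A (T : ℝ) : Set (𝓞 K) := {a | ∀ σ : K →+* ℂ, ‖σ a‖ < T}

theorem A_finite (T : ℝ) : (A K T).Finite := by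
  have h := NumberField.Embeddings.finite_of_norm_le K ℂ T
  refine Set.Finite.of_finite_image (f := fun a : 𝓞 K => (a : K)) (h.subset ?_) ?_
  · rintro _ ⟨a, ha, rfl⟩
    exact ⟨a.2, fun σ => (ha σ).le⟩
  · exact (RingOfIntegers.coe_injective).injOn

open scoped Classical in
theorem translates_le (T : ℝ≥0) (x : mixedSpace K) :
    {g : mixedEmbedding.integerLattice K | x ∈ g +ᵥ convexBodyLT K (fun _ => T / 2)}.encard
      ≤ (A K T).encard := by
  rcases Set.eq_empty_or_nonempty
    {g : mixedEmbedding.integerLattice K | x ∈ g +ᵥ convexBodyLT K (fun _ => T / 2)} with h | ⟨g₀, hg₀⟩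
  · rw [h]; simp
  have key : ∀ g : mixedEmbedding.integerLattice K, x ∈ g +ᵥ convexBodyLT K (fun _ => T / 2) →
      ∃ a : 𝓞 K, a ∈ A K T ∧ mixedEmbedding K a = (g : mixedSpace K) - g₀ := by
    intro g hg
    obtain ⟨s, hs, hsx⟩ := hg
    obtain ⟨s₀, hs₀, hsx₀⟩ := hg₀
    have h1 : (g : mixedSpace K) - g₀ = s₀ - s := by
      have e1 : (g : mixedSpace K) + s = x := hsx
      have e2 : (g₀ : mixedSpace K) + s₀ = x := hsx₀
      rw [← e2] at e1
      linear_combination (exp := 1) e1
    have h2 : (g : mixedSpace K) - g₀ ∈ mixedEmbedding.integerLattice K :=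
      Submodule.sub_mem _ g.2 g₀.2
    obtain ⟨a, ha⟩ := h2
    have ha' : mixedEmbedding K (a : K) = (g : mixedSpace K) - g₀ := ha
    refine ⟨a, ?_, ha'⟩
    have h3 : mixedEmbedding K (a : K) ∈ convexBodyLT K (fun _ => T) := by
      rw [ha', h1]
      constructor
      · intro w _
        have q1 := hs.1 w trivial
        have q2 := hs₀.1 w trivial
        simp only [Metric.mem_ball, dist_zero_right] at q1 q2 ⊢
        calc ‖s₀.1 w - s.1 w‖ ≤ ‖s₀.1 w‖ + ‖s.1 w‖ := norm_sub_le _ _
          _ < ((T / 2 : ℝ≥0) : ℝ) + ((T / 2 : ℝ≥0) : ℝ) := add_lt_add q2 q1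
          _ = T := by push_cast; ring
      · intro w _
        have q1 := hs.2 w trivial
        have q2 := hs₀.2 w trivial
        simp only [Metric.mem_ball, dist_zero_right] at q1 q2 ⊢
        calc ‖s₀.2 w - s.2 w‖ ≤ ‖s₀.2 w‖ + ‖s.2 w‖ := norm_sub_le _ _
          _ < ((T / 2 : ℝ≥0) : ℝ) + ((T / 2 : ℝ≥0) : ℝ) := add_lt_add q2 q1
          _ = T := by push_cast; ring
    rw [convexBodyLT_mem] at h3
    intro σ
    have := h3 (InfinitePlace.mk σ)
    rwa [InfinitePlace.apply] at this
  choose! f hf using key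
  refine Set.encard_le_encard_of_injOn (f := f) (fun g hg => (hf g hg).1) ?_
  intro g hg g' hg' hgg
  have e1 := (hf g hg).2
  have e2 := (hf g' hg').2
  rw [hgg, e2] at e1
  have : (g' : mixedSpace K) = g := by
    linear_combination (exp := 1) e1
  exact (Subtype.ext this).symm

open scoped Classical in
theorem main_ennreal (T : ℝ≥0) :
    volume (convexBodyLT K (fun _ => T / 2)) ≤
      ((A K T).encard : ℝ≥0∞) * volume (ZSpan.fundamentalDomain (latticeBasis K)) := by
  have : Countable (mixedEmbedding.integerLattice K).toAddSubgroup := by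
    change Countable (mixedEmbedding.integerLattice K)
    rw [← span_latticeBasis]; infer_instance
  have hF : IsAddFundamentalDomain (mixedEmbedding.integerLattice K).toAddSubgroup
      (ZSpan.fundamentalDomain (latticeBasis K)) := fundamentalDomain_integerLattice K
  apply measure_le hF
  · exact (MeasurableSet.univ_pi fun _ => measurableSet_ball).prod
      (MeasurableSet.univ_pi fun _ => measurableSet_ball)
  · exact translates_le K T

theorem taskA1a : Pool.Agent.W229.V.TaskA1a := by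
  classical
  intro K _ _ T hT
  have hfin := A_finite K T
  lift T to ℝ≥0 using hT.le
  have h := main_ennreal K T
  rw [convexBodyLT_volume, volume_fundamentalDomain_latticeBasis, Finset.prod_pow_eq_pow_sum,
    InfinitePlace.sum_mult_eq] at h
  rw [← hfin.cast_ncard_eq] at h
  change (T : ℝ) ^ finrank ℚ K ≤ 2 ^ finrank ℚ K * Real.sqrt |(discr K : ℝ)| * ((A K T).ncard : ℝ)
  set N := (A K T).ncard
  have h1 : ((T / 2 : ℝ≥0) ^ finrank ℚ K) ≤ (N : ℝ≥0) * NNReal.sqrt ‖discr K‖₊ := by
    have h2 : (((T / 2 : ℝ≥0) ^ finrank ℚ K : ℝ≥0) : ℝ≥0∞) ≤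
        (((N : ℝ≥0) * NNReal.sqrt ‖discr K‖₊ : ℝ≥0) : ℝ≥0∞) := by
      calc (((T / 2 : ℝ≥0) ^ finrank ℚ K : ℝ≥0) : ℝ≥0∞)
          ≤ (convexBodyLTFactor K : ℝ≥0∞) * (((T / 2 : ℝ≥0) ^ finrank ℚ K : ℝ≥0) : ℝ≥0∞) := by
            refine le_mul_of_one_le_left zero_le ?_
            exact_mod_cast one_le_convexBodyLTFactor K
        _ ≤ _ := h
        _ ≤ (((N : ℝ≥0) * NNReal.sqrt ‖discr K‖₊ : ℝ≥0) : ℝ≥0∞) := by
            push_cast
            gcongr
            refine mul_le_of_le_one_left zero_le ?_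
            exact pow_le_one₀ zero_le (by simp)
    exact_mod_cast h2
  have h3 : ((T / 2 : ℝ) ^ finrank ℚ K) ≤ (N : ℝ) * Real.sqrt |(discr K : ℝ)| := by
    have h4 : (((T / 2 : ℝ≥0) ^ finrank ℚ K : ℝ≥0) : ℝ) ≤
      (((N : ℝ≥0) * NNReal.sqrt ‖discr K‖₊ : ℝ≥0) : ℝ) := NNReal.coe_le_coe.2 h1
    simpa [Int.norm_eq_abs] using h4
  rw [div_pow, div_le_iff₀ (by positivity)] at h3
  linarith

end Pool.Agent.W669.VA1a
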