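import Pool.Agent.H16.LA.S8.W229.V.Stmts

set_option autoImplicit false

namespace Pool.Agent.W669.VA1b

open NumberField NumberField.InfinitePlace Module

theorem taskA1b : Pool.Agent.W229.V.TaskA1b := by
  classical
  intro K _ _ T hT W hW
  set A : Set (𝓞 K) := {a : 𝓞 K | ∀ σ : K →+* ℂ, ‖σ a‖ < T} with hA
  let M : Submodule ℤ (𝓞 K) :=
    (W.restrictScalars ℤ).comap ((Algebra.linearMap (𝓞 K) K).restrictScalars ℤ)
  have hM : ∀ a : 𝓞 K, a ∈ M ↔ (a : K) ∈ W := fun a => Iff.rfl
  let b : Basis (Fin (finrank ℤ M)) ℤ M := Module.finBasis ℤ M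
  set m := finrank ℤ M with hm
  have hmW : m ≤ finrank ℚ W := by
    have h1 : LinearIndependent ℤ (fun i => ((b i : 𝓞 K) : K)) := by
      have h0 := b.linearIndependent
      have := h0.map' (((Algebra.linearMap (𝓞 K) K).restrictScalars ℤ) ∘ₗ M.subtype) (by
        rw [LinearMap.ker_eq_bot]
        exact (RingOfIntegers.coe_injective).comp (Subtype.val_injective))
      exact this
    have h2 : LinearIndependent ℚ (fun i => ((b i : 𝓞 K) : K)) :=
      (LinearIndependent.iff_fractionRing ℤ ℚ).1 h1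
    have h3 : LinearIndependent ℚ (fun i => (⟨((b i : 𝓞 K) : K), (hM _).1 (b i).2⟩ : W)) :=
      LinearIndependent.of_comp W.subtype h2
    simpa using h3.fintype_card_le_finrank
  set q : ℕ := ⌊2 * T⌋₊ + 1 with hq
  have hq1 : 2 * T < q := by
    have := Nat.lt_floor_add_one (2 * T)
    rw [hq]; push_cast; exact this
  have hq2 : (q : ℝ) ≤ 3 * T := by
    have := Nat.floor_le (show 0 ≤ 2 * T by linarith)
    rw [hq]; push_cast; linarith
  have hq0 : (0 : ℝ) < q := by linarith
  have : NeZero q := ⟨by positivity⟩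
  let F : 𝓞 K → (Fin m → ZMod q) := fun a =>
    if h : a ∈ M then fun i => ((b.repr ⟨a, h⟩ i : ℤ) : ZMod q) else 0
  have hinj : Set.InjOn F A := by
    intro a ha a' ha' hF
    have hMa : a ∈ M := (hM a).2 (hW a ha)
    have hMa' : a' ∈ M := (hM a').2 (hW a' ha')
    simp only [F, dif_pos hMa, dif_pos hMa'] at hF
    have h1 : ∀ i, ∃ c : ℤ, b.repr ⟨a, hMa⟩ i - b.repr ⟨a', hMa'⟩ i = q * c := by
      intro i
      have := congrFun hF i
      rw [ZMod.intCast_eq_intCast_iff_dvd_sub] at this
      obtain ⟨c, hc⟩ := this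
      exact ⟨-c, by linear_combination -hc⟩
    choose c hc using h1
    let d : M := ∑ i, c i • b i
    have h2 : (⟨a, hMa⟩ : M) - ⟨a', hMa'⟩ = (q : ℤ) • d := by
      apply b.ext_elem
      intro i
      rw [map_sub, Finsupp.sub_apply, hc i, map_zsmul, Finsupp.smul_apply]
      congr 1
      simp only [d]
      rw [b.repr_sum_self]
    have h3 : a - a' = (q : 𝓞 K) * (d : 𝓞 K) := by
      have := congrArg (fun x : M => (x : 𝓞 K)) h2
      simpa using this
    have h4 : (d : 𝓞 K) = 0 := by
      by_contra hne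
      have h5 : ∀ w : InfinitePlace K, w (d : 𝓞 K) < 1 := by
        intro w
        have h6 : ‖w.embedding ((a : K) - a')‖ < 2 * T := by
          rw [map_sub]
          calc _ ≤ ‖w.embedding (a : K)‖ + ‖w.embedding (a' : K)‖ := norm_sub_le _ _
            _ < T + T := add_lt_add (ha _) (ha' _)
            _ = 2 * T := by ring
        have h7 : (a : K) - a' = (q : K) * ((d : 𝓞 K) : K) := by
          have := congrArg (fun x : 𝓞 K => (x : K)) h3
          simpa using this
        rw [h7, map_mul, norm_mul, map_natCast, Complex.norm_natCast, norm_embedding_eq] at h6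
        by_contra h8
        push Not at h8
        have : (q : ℝ) * 1 ≤ q * w ((d : 𝓞 K) : K) := by gcongr
        linarith
      obtain ⟨w⟩ : Nonempty (InfinitePlace K) := inferInstance
      have := one_le_of_lt_one (w := w) hne (fun z _ => h5 z)
      linarith [h5 w]
    rw [h4, mul_zero] at h3
    exact sub_eq_zero.1 h3
  have hfin : A.ncard ≤ q ^ m := by
    have h1 : (F '' A).ncard = A.ncard := Set.ncard_image_of_injOn hinj
    rw [← h1]
    have h2 : (F '' A).ncard ≤ (Set.univ : Set (Fin m → ZMod q)).ncard :=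
      Set.ncard_le_ncard (Set.subset_univ _)
    rw [Set.ncard_univ, Nat.card_eq_fintype_card, Fintype.card_fun, ZMod.card, Fintype.card_fin] at h2
    exact h2
  calc (A.ncard : ℝ) ≤ ((q ^ m : ℕ) : ℝ) := by exact_mod_cast hfin
    _ = (q : ℝ) ^ m := by push_cast; rfl
    _ ≤ (3 * T) ^ m := by gcongr
    _ ≤ (3 * T) ^ finrank ℚ W := pow_le_pow_right₀ (by linarith) hmW

end Pool.Agent.W669.VA1b
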